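import Pool.Agent.helper32.NN.Spec

set_option autoImplicit false

namespace Pool.Agent.NN

universe u v

/-- the annihilator of `I` modulo `Z` in `A`. -/
def MOD_N {K : Type u} {U : Type v} [Field K] [Ring U] [Algebra K U] (A I Z : Submodule K U) :
    Submodule K U where
  carrier := {a | a ∈ A ∧ ∀ x ∈ I, x * a ∈ Z}
  add_mem' := by
    rintro a b ⟨ha, ha'⟩ ⟨hb, hb'⟩
    refine ⟨A.add_mem ha hb, fun x hx => ?_⟩
    rw [mul_add]
    exact Z.add_mem (ha' x hx) (hb' x hx)
  zero_mem' := by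
    refine ⟨A.zero_mem, fun x _ => ?_⟩
    rw [mul_zero]
    exact Z.zero_mem
  smul_mem' := by
    rintro c a ⟨ha, ha'⟩
    refine ⟨A.smul_mem c ha, fun x hx => ?_⟩
    rw [mul_smul_comm]
    exact Z.smul_mem c (ha' x hx)

theorem MOD_mem {K : Type u} {U : Type v} [Field K] [Ring U] [Algebra K U] {A I Z : Submodule K U}
    {a : U} : a ∈ MOD_N A I Z ↔ a ∈ A ∧ ∀ x ∈ I, x * a ∈ Z := Iff.rfl

theorem MOD_aux {K : Type u} {V W : Type v} [Field K] [AddCommGroup V] [Module K V]
    [AddCommGroup W] [Module K W] [Module.Finite K W] (g : V →ₗ[K] W) :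
    ∃ P : Submodule K V, P.FG ∧ ∀ a : V, ∃ b : V, g b = 0 ∧ ∃ c ∈ P, a = b + c := by
  obtain ⟨h, hh⟩ := g.rangeRestrict.exists_rightInverse_of_surjective
    (LinearMap.range_rangeRestrict g)
  refine ⟨LinearMap.range h, Module.Finite.iff_fg.mp inferInstance, fun a => ?_⟩
  refine ⟨a - h (g.rangeRestrict a), ?_, h (g.rangeRestrict a), ⟨_, rfl⟩, by simp⟩
  have h1 : g.rangeRestrict (a - h (g.rangeRestrict a)) = 0 := by
    rw [map_sub, sub_eq_zero]
    exact (LinearMap.congr_fun hh (g.rangeRestrict a)).symm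
  exact congrArg Subtype.val h1

theorem MOD (hCOD : COD_stmt.{u, v}) : MOD_stmt.{u, v} := by
  intro K U _ _ _ A hC I Z F hI hIA hZI hZA hFI hFG hIZF
  have hIA' : ∀ x ∈ I, ∀ a ∈ A, x * a ∈ I := fun x hx a ha => by
    rw [← hIA]; exact Submodule.mul_mem_mul hx ha
  have hZA' : ∀ x ∈ Z, ∀ a ∈ A, x * a ∈ Z := fun x hx a ha =>
    hZA (Submodule.mul_mem_mul hx ha)
  have hAA : ∀ x ∈ A, ∀ a ∈ A, x * a ∈ A := fun x hx a ha =>
    hC.mul (Submodule.mul_mem_mul hx ha)
  obtain ⟨S, hS⟩ := hFG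
  have hN : IsId A (MOD_N A I Z) := by
    refine ⟨fun a ha => ha.1, ?_, ?_⟩
    · rw [Submodule.mul_le]
      intro b hb a ha
      refine ⟨hAA b hb a ha.1, fun x hx => ?_⟩
      rw [← mul_assoc]
      exact ha.2 _ (hIA' x hx b hb)
    · rw [Submodule.mul_le]
      intro a ha b hb
      refine ⟨hAA a ha.1 b hb, fun x hx => ?_⟩
      rw [← mul_assoc]
      exact hZA' _ (ha.2 x hx) b hb
  have hSI : ∀ s ∈ S, s ∈ I := fun s hs => hFI (hS ▸ Submodule.subset_span hs)
  have hq : ∀ x ∈ I, Z.mkQ x ∈ F.map Z.mkQ := by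
    intro x hx
    obtain ⟨z, hz, f, hf, rfl⟩ := Submodule.mem_sup.mp (hIZF hx)
    refine ⟨f, hf, ?_⟩
    rw [map_add]
    have : Z.mkQ z = 0 := by simpa using hz
    rw [this, zero_add]
  let g : A →ₗ[K] ((s : S) → ↥(F.map Z.mkQ)) :=
    { toFun := fun a s => ⟨Z.mkQ (s.1 * a.1), hq _ (hIA' _ (hSI s.1 s.2) _ a.2)⟩
      map_add' := by
        intro a b
        funext s
        apply Subtype.ext
        simp [mul_add]
      map_smul' := by
        intro c a
        funext s
        apply Subtype.ext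
        simp }
  have : Module.Finite K ↥F := Module.Finite.iff_fg.mpr ⟨S, hS⟩
  have : Module.Finite K ↥(F.map Z.mkQ) := inferInstance
  obtain ⟨P, hP, hPa⟩ := MOD_aux g
  have key : MOD_N A I Z = A := by
    refine hCOD K U A hC (MOD_N A I Z) (P.map A.subtype) hN ?_ (hP.map _) ?_
    · rintro _ ⟨a, _, rfl⟩
      exact a.2
    · intro a ha
      obtain ⟨b, h2, c, hc, hbc⟩ := hPa ⟨a, ha⟩
      have hbN : b.1 ∈ MOD_N A I Z := by
        refine ⟨b.2, ?_⟩
        have h3 : ∀ s ∈ S, s * b.1 ∈ Z := by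
          intro s hs
          have := congrFun h2 ⟨s, hs⟩
          have h4 : Z.mkQ (s * b.1) = 0 := congrArg Subtype.val this
          simpa using h4
        have h5 : ∀ f ∈ F, f * b.1 ∈ Z := by
          intro f hf
          rw [← hS] at hf
          induction hf using Submodule.span_induction with
          | mem x hx => exact h3 x hx
          | zero => rw [zero_mul]; exact Z.zero_mem
          | add x y _ _ hx hy => rw [add_mul]; exact Z.add_mem hx hy
          | smul c x _ hx => rw [smul_mul_assoc]; exact Z.smul_mem c hx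
        intro x hx
        obtain ⟨z, hz, f, hf, rfl⟩ := Submodule.mem_sup.mp (hIZF hx)
        rw [add_mul]
        exact Z.add_mem (hZA' z hz _ b.2) (h5 f hf)
      have h6 : a = b.1 + c.1 := congrArg Subtype.val hbc
      rw [h6]
      exact Submodule.add_mem_sup hbN ⟨c, hc, rfl⟩
  apply le_antisymm hZI
  conv_lhs => rw [← hIA]
  rw [Submodule.mul_le]
  intro x hx a ha
  rw [← key] at ha
  exact ha.2 x hx

end Pool.Agent.NN
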